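import Pool.Agent.K.MP_8a0bcd_co.C1

open Pool.Agent.Cyl

theorem Pool.Agent.Results.MP_8a0bcd_co.FewDirections.result (c : ℕ) (hc : 2 ≤ c) :
    ∃ s₀ b₀ : ℕ, ∀ s, s₀ ≤ s → ∀ b, b₀ ≤ b → ∃ C n₀ : ℕ, ∀ n, n₀ ≤ n →
      (n : ℕ∞) ^ 2 ≤ C * fc c s b n ∧ fc c s b n ≤ C * (n : ℕ∞) ^ 2 :=
  main c hc
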